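import Mathlib
import Pool.Agent.LTHD.Defs

open Real Finset MeasureTheory
open Pool.Agent.LiebT2

set_option autoImplicit false

namespace Pool.Agent.LTHX

open Pool.Agent.LTHD

/-- explicit transition `0` for `x ≤ 0`, `1` for `x ≥ 1`, with `0 ≤ S' ≤ 2` -/
noncomputable def SX (x : ℝ) : ℝ :=
  2 * (max x 0) ^ 2 - 4 * (max (x - 1 / 2) 0) ^ 2 + 2 * (max (x - 1) 0) ^ 2

theorem hasDerivAt_msq (x : ℝ) : HasDerivAt (fun y : ℝ => (max y 0) ^ 2) (2 * max x 0) x := by
  rcases lt_trichotomy x 0 with hx | hx | hx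
  · have h1 : (fun y : ℝ => (max y 0) ^ 2) =ᶠ[nhds x] fun _ => (0 : ℝ) := by
      filter_upwards [gt_mem_nhds hx] with y hy
      rw [max_eq_right hy.le]; norm_num
    rw [max_eq_right hx.le, mul_zero]
    exact (hasDerivAt_const x (0 : ℝ)).congr_of_eventuallyEq h1
  · subst hx
    rw [max_self, mul_zero]
    rw [hasDerivAt_iff_isLittleO_nhds_zero]
    simp only [zero_add, max_self, smul_zero, sub_zero]
    have h2 : (fun h : ℝ => (max h 0) ^ 2 - 0 ^ 2) =O[nhds 0] fun h => h ^ 2 := by
      apply Asymptotics.IsBigO.of_bound 1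
      apply Filter.Eventually.of_forall
      intro h
      rw [one_mul, Real.norm_eq_abs, Real.norm_eq_abs]
      rcases le_total h 0 with h0 | h0
      · rw [max_eq_right h0]
        simp only [ne_eq, OfNat.ofNat_ne_zero, not_false_eq_true, zero_pow, sub_self, abs_zero]
        exact abs_nonneg _
      · rw [max_eq_left h0]; simp
    refine h2.trans_isLittleO ?_
    have := Asymptotics.isLittleO_pow_id (𝕜 := ℝ) (n := 2) (by norm_num)
    exact this
  · have h1 : (fun y : ℝ => (max y 0) ^ 2) =ᶠ[nhds x] fun y => y ^ 2 := by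
      filter_upwards [lt_mem_nhds hx] with y hy
      rw [max_eq_left hy.le]
    rw [max_eq_left hx.le]
    have h3 : HasDerivAt (fun y : ℝ => y ^ 2) (2 * x) x := by
      simpa using hasDerivAt_pow 2 x
    exact h3.congr_of_eventuallyEq h1

theorem contDiff_msq : ContDiff ℝ 1 (fun y : ℝ => (max y 0) ^ 2) := by
  rw [contDiff_one_iff_deriv]
  refine ⟨fun x => (hasDerivAt_msq x).differentiableAt, ?_⟩
  have : deriv (fun y : ℝ => (max y 0) ^ 2) = fun x => 2 * max x 0 := by
    funext x
    exact (hasDerivAt_msq x).deriv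
  rw [this]
  fun_prop

theorem contDiff_SX : ContDiff ℝ 1 SX := by
  unfold SX
  have h1 := contDiff_msq
  have h2 : ContDiff ℝ 1 (fun x : ℝ => (max (x - 1 / 2) 0) ^ 2) :=
    contDiff_msq.comp (contDiff_id.sub contDiff_const)
  have h3 : ContDiff ℝ 1 (fun x : ℝ => (max (x - 1) 0) ^ 2) :=
    contDiff_msq.comp (contDiff_id.sub contDiff_const)
  exact ((contDiff_const.mul h1).sub (contDiff_const.mul h2)).add (contDiff_const.mul h3)

theorem hasDerivAt_SX (x : ℝ) : HasDerivAt SX
    (4 * max x 0 - 8 * max (x - 1 / 2) 0 + 4 * max (x - 1) 0) x := by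
  have h1 := (hasDerivAt_msq x).const_mul 2
  have h2 : HasDerivAt (fun x : ℝ => (max (x - 1 / 2) 0) ^ 2) (2 * max (x - 1 / 2) 0) x := by
    have := (hasDerivAt_msq (x - 1 / 2)).comp x ((hasDerivAt_id x).sub_const (1 / 2))
    simpa [Function.comp_def] using this
  have h3 : HasDerivAt (fun x : ℝ => (max (x - 1) 0) ^ 2) (2 * max (x - 1) 0) x := by
    have := (hasDerivAt_msq (x - 1)).comp x ((hasDerivAt_id x).sub_const 1)
    simpa [Function.comp_def] using this
  have h := (h1.sub (h2.const_mul 4)).add (h3.const_mul 2)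
  have e : (4 * max x 0 - 8 * max (x - 1 / 2) 0 + 4 * max (x - 1) 0)
      = 2 * (2 * max x 0) - 4 * (2 * max (x - 1 / 2) 0) + 2 * (2 * max (x - 1) 0) := by ring
  rw [e]
  exact h

theorem SX_zero {x : ℝ} (hx : x ≤ 0) : SX x = 0 := by
  unfold SX
  rw [max_eq_right hx, max_eq_right (by linarith), max_eq_right (by linarith)]
  norm_num

theorem SX_one {x : ℝ} (hx : 1 ≤ x) : SX x = 1 := by
  unfold SX
  rw [max_eq_left (by linarith), max_eq_left (by linarith), max_eq_left (by linarith)]
  ring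

theorem SX_mem (x : ℝ) : 0 ≤ SX x ∧ SX x ≤ 1 := by
  rcases le_total x 0 with h | h
  · rw [SX_zero h]; norm_num
  rcases le_total 1 x with h1 | h1
  · rw [SX_one h1]; norm_num
  unfold SX
  rw [max_eq_left h, max_eq_right (show x - 1 ≤ 0 by linarith)]
  rcases le_total x (1 / 2) with h2 | h2
  · rw [max_eq_right (show x - 1 / 2 ≤ 0 by linarith)]
    constructor <;> nlinarith
  · rw [max_eq_left (show 0 ≤ x - 1 / 2 by linarith)]
    constructor <;> nlinarith [sq_nonneg (x - 1)]

theorem dSX (x : ℝ) : |deriv SX x| ≤ 2 := by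
  rw [(hasDerivAt_SX x).deriv, abs_le]
  rcases le_total x 0 with h | h
  · rw [max_eq_right h, max_eq_right (by linarith), max_eq_right (by linarith)]
    norm_num
  rcases le_total 1 x with h1 | h1
  · rw [max_eq_left (by linarith), max_eq_left (by linarith), max_eq_left (by linarith)]
    constructor <;> linarith
  rw [max_eq_left h, max_eq_right (show x - 1 ≤ 0 by linarith)]
  rcases le_total x (1 / 2) with h2 | h2
  · rw [max_eq_right (show x - 1 / 2 ≤ 0 by linarith)]
    constructor <;> linarith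
  · rw [max_eq_left (show 0 ≤ x - 1 / 2 by linarith)]
    constructor <;> linarith

theorem trans_SX : Trans (fun x => Real.sin (π / 2 * SX x)) (fun x => Real.cos (π / 2 * SX x)) 10 := by
  have hder : ∀ x, HasDerivAt SX (deriv SX x) x := fun x =>
    (hasDerivAt_SX x).differentiableAt.hasDerivAt
  have ha : ∀ x, HasDerivAt (fun x => Real.sin (π / 2 * SX x))
      (Real.cos (π / 2 * SX x) * (π / 2 * deriv SX x)) x := fun x =>
    ((hder x).const_mul (π / 2)).sin
  have hb : ∀ x, HasDerivAt (fun x => Real.cos (π / 2 * SX x))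
      (-Real.sin (π / 2 * SX x) * (π / 2 * deriv SX x)) x := fun x =>
    ((hder x).const_mul (π / 2)).cos
  refine ⟨?_, ?_, ?_, ?_, ?_, ?_, ?_, ?_⟩
  · exact Real.contDiff_sin.comp (contDiff_const.mul contDiff_SX)
  · exact Real.contDiff_cos.comp (contDiff_const.mul contDiff_SX)
  · intro x; exact Real.sin_sq_add_cos_sq _
  · intro x
    have h := SX_mem x
    apply Real.sin_nonneg_of_nonneg_of_le_pi
    · have := h.1; positivity
    · nlinarith [h.1, h.2, Real.pi_pos]
  · intro x
    have h := SX_mem x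
    apply Real.cos_nonneg_of_neg_pi_div_two_le_of_le
    · have := h.1
      have : 0 ≤ π / 2 * SX x := by positivity
      linarith [Real.pi_pos]
    · nlinarith [h.1, h.2, Real.pi_pos]
  · intro x hx
    simp [SX_zero hx]
  · intro x hx
    simp [SX_one hx]
  · intro x
    rw [(ha x).deriv, (hb x).deriv]
    have h1 : (Real.cos (π / 2 * SX x) * (π / 2 * deriv SX x)) ^ 2
        + (-Real.sin (π / 2 * SX x) * (π / 2 * deriv SX x)) ^ 2 = (π / 2 * deriv SX x) ^ 2 := by
      have := Real.sin_sq_add_cos_sq (π / 2 * SX x)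
      calc _ = (Real.sin (π / 2 * SX x) ^ 2 + Real.cos (π / 2 * SX x) ^ 2)
            * (π / 2 * deriv SX x) ^ 2 := by ring
        _ = _ := by rw [this, one_mul]
    rw [h1, mul_pow]
    have h2 : deriv SX x ^ 2 ≤ 2 ^ 2 := by
      rw [← sq_abs (deriv SX x)]
      exact pow_le_pow_left₀ (abs_nonneg _) (dSX x) 2
    have h3 : (π / 2) ^ 2 ≤ 10 / 4 := by
      have h4 := Real.pi_lt_d2
      have h5 : π ^ 2 ≤ 3.15 ^ 2 := pow_le_pow_left₀ Real.pi_pos.le h4.le 2
      have h6 : π < 3.1416 := Real.pi_lt_d4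
      have h7 : π ^ 2 ≤ 3.1416 ^ 2 := pow_le_pow_left₀ Real.pi_pos.le h6.le 2
      nlinarith
    calc (π / 2) ^ 2 * deriv SX x ^ 2 ≤ 10 / 4 * 2 ^ 2 := by
          apply mul_le_mul h3 h2 (sq_nonneg _) (by norm_num)
      _ = 10 := by norm_num

end Pool.Agent.LTHX
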