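import Mathlib
import Pool.Agent.LTHD.Ortho
import Pool.Agent.LTFN.FMain
import Pool.Agent.LTHX.TransX

open Real Finset MeasureTheory
open Pool.Agent.LiebT2 Pool.Agent.LTHD Pool.Agent.LTFN

set_option autoImplicit false

namespace Pool.Agent.LTHX

private theorem kcu_pt {x c t : ℝ} (hx : 0 < x) (hc : 0 < c) (ht : 0 < t) :
    Real.exp (-t) * t ^ x ≤ (x / (c * Real.exp 1)) ^ x * Real.exp (-(1 - c) * t) := by
  have h1 : Real.log (t * c / x) ≤ t * c / x - 1 :=
    Real.log_le_sub_one_of_pos (by positivity)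
  have h2 : Real.log (t * c / x) = Real.log t + Real.log c - Real.log x := by
    rw [Real.log_div (by positivity) hx.ne', Real.log_mul ht.ne' hc.ne']
  have h3 : x * (Real.log t + Real.log c - Real.log x) ≤ t * c - x := by
    have := mul_le_mul_of_nonneg_left (h2 ▸ h1) hx.le
    calc x * (Real.log t + Real.log c - Real.log x) ≤ x * (t * c / x - 1) := this
      _ = t * c - x := by field_simp
  have h4 : Real.log (x / (c * Real.exp 1)) = Real.log x - Real.log c - 1 := by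
    rw [Real.log_div hx.ne' (by positivity), Real.log_mul hc.ne' (Real.exp_pos 1).ne',
      Real.log_exp]
    ring
  rw [Real.rpow_def_of_pos ht, Real.rpow_def_of_pos (by positivity : 0 < x / (c * Real.exp 1)),
    ← Real.exp_add, ← Real.exp_add, h4]
  apply Real.exp_le_exp.2
  nlinarith

private theorem kcu_gamma {x : ℝ} (hx : 1 < x) :
    Real.Gamma (x + 1) ≤ (x / ((1 - 1 / x) * Real.exp 1)) ^ x * x := by
  have hx0 : 0 < x := by linarith
  set c : ℝ := 1 - 1 / x with hc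
  have hc0 : 0 < c := by
    rw [hc, sub_pos, div_lt_one hx0]
    exact hx
  have hc1 : 1 - c = 1 / x := by rw [hc]; ring
  rw [Real.Gamma_eq_integral (by linarith)]
  have e1 : x + 1 - 1 = x := by ring
  rw [e1]
  have hpos : 0 < 1 - c := by rw [hc1]; positivity
  have hi : IntegrableOn (fun t : ℝ => (x / (c * Real.exp 1)) ^ x * Real.exp (-(1 - c) * t))
      (Set.Ioi 0) := by
    apply Integrable.const_mul
    exact exp_neg_integrableOn_Ioi 0 hpos
  have hg : IntegrableOn (fun t : ℝ => Real.exp (-t) * t ^ x) (Set.Ioi 0) := by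
    have := Real.GammaIntegral_convergent (s := x + 1) (by linarith)
    rwa [e1] at this
  calc ∫ t in Set.Ioi 0, Real.exp (-t) * t ^ x
      ≤ ∫ t in Set.Ioi 0, (x / (c * Real.exp 1)) ^ x * Real.exp (-(1 - c) * t) := by
        apply setIntegral_mono_on hg hi measurableSet_Ioi
        intro t ht
        exact kcu_pt hx0 hc0 ht
    _ = (x / (c * Real.exp 1)) ^ x * x := by
        rw [integral_const_mul]
        congr 1
        have := integral_exp_mul_Ioi (a := -(1 - c)) (by linarith) 0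
        rw [this, hc1]
        simp

private theorem kcu_eq {d : ℕ} (hd : 0 < d) :
    Kc d = (d : ℝ) / ((d : ℝ) + 2) * (4 * π) * (Real.Gamma ((d : ℝ) / 2 + 1)) ^ (2 / (d : ℝ)) := by
  have hd' : (0 : ℝ) < d := by exact_mod_cast hd
  have hG : 0 < Real.Gamma ((d : ℝ) / 2 + 1) := Real.Gamma_pos_of_pos (by positivity)
  unfold Kc om
  have h1 : (√π ^ d) ^ (2 / (d : ℝ)) = π := by
    rw [← Real.rpow_natCast, ← Real.rpow_mul (Real.sqrt_nonneg _),
      show (d : ℝ) * (2 / (d : ℝ)) = 2 by field_simp, Real.rpow_two, Real.sq_sqrt pi_pos.le]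
  rw [Real.div_rpow (by positivity) hG.le, h1]
  have : 0 < (Real.Gamma ((d : ℝ) / 2 + 1)) ^ (2 / (d : ℝ)) := Real.rpow_pos_of_pos hG _
  have := pi_pos
  field_simp
  ring

private theorem kcu_main {d : ℕ} (hd : 3 ≤ d) :
    Kc d ≤ 2 * π * d / Real.exp 1 * ((d : ℝ) / ((d : ℝ) + 2) * ((d : ℝ) / ((d : ℝ) - 2)) *
      Real.exp (2 / (d : ℝ) * Real.log ((d : ℝ) / 2))) := by
  have hd' : (3 : ℝ) ≤ d := by exact_mod_cast hd
  have hx : 1 < (d : ℝ) / 2 := by linarith
  have hG : 0 < Real.Gamma ((d : ℝ) / 2 + 1) := Real.Gamma_pos_of_pos (by positivity)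
  have h1 := kcu_gamma hx
  set x : ℝ := (d : ℝ) / 2 with hxd
  have hx0 : 0 < x := by linarith
  have hdx : (d : ℝ) = 2 * x := by rw [hxd]; ring
  have hc0 : 0 < 1 - 1 / x := by
    rw [sub_pos, div_lt_one hx0]
    exact hx
  have hb : 0 < x / ((1 - 1 / x) * Real.exp 1) := by positivity
  have h2 : (Real.Gamma (x + 1)) ^ (2 / (d : ℝ)) ≤
      x / ((1 - 1 / x) * Real.exp 1) * Real.exp (2 / (d : ℝ) * Real.log x) := by
    have e : 2 / (d : ℝ) = 1 / x := by rw [hdx]; field_simp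
    calc (Real.Gamma (x + 1)) ^ (2 / (d : ℝ))
        ≤ ((x / ((1 - 1 / x) * Real.exp 1)) ^ x * x) ^ (2 / (d : ℝ)) :=
          Real.rpow_le_rpow hG.le h1 (by positivity)
      _ = x / ((1 - 1 / x) * Real.exp 1) * Real.exp (2 / (d : ℝ) * Real.log x) := by
          rw [Real.mul_rpow (by positivity) hx0.le, e, ← Real.rpow_mul hb.le,
            mul_one_div_cancel hx0.ne', Real.rpow_one, Real.rpow_def_of_pos hx0]
          congr 2
          ring
  rw [kcu_eq (by omega)]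
  have hE := Real.exp_pos (2 / (d : ℝ) * Real.log x)
  calc (d : ℝ) / ((d : ℝ) + 2) * (4 * π) * (Real.Gamma (x + 1)) ^ (2 / (d : ℝ))
      ≤ (d : ℝ) / ((d : ℝ) + 2) * (4 * π) *
        (x / ((1 - 1 / x) * Real.exp 1) * Real.exp (2 / (d : ℝ) * Real.log x)) :=
        mul_le_mul_of_nonneg_left h2 (by positivity)
    _ = _ := by
        have hx1 : 0 < x - 1 := by linarith
        have e1 : x / ((1 - 1 / x) * Real.exp 1) = x * (x / (x - 1)) / Real.exp 1 := by
          have := (Real.exp_pos 1).ne'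
          have : 1 - 1 / x = (x - 1) / x := by field_simp
          rw [this]
          field_simp
        rw [e1]
        have e2 : (d : ℝ) / ((d : ℝ) - 2) = x / (x - 1) := by
          rw [hdx, show 2 * x - 2 = 2 * (x - 1) by ring, mul_div_mul_left _ _ two_ne_zero]
        rw [e2]
        have e3 : 2 * π * (d : ℝ) = 4 * π * x := by rw [hdx]; ring
        rw [e3]
        ring

private theorem kcu_fin {d L l : ℝ} (hd : 3 ≤ d) (hl : 1 ≤ l) (hL : L = l / d) (hL2 : L ≤ 1 / 100) :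
    d / (d + 2) * (d / (d - 2)) * Real.exp (2 * L) ≤ 1 + 3 * L := by
  have hd0 : 0 < d := by linarith
  have hL0 : 0 < L := by rw [hL]; positivity
  have h1 : Real.exp (2 * L) ≤ 1 + 2 * L + (2 * L) ^ 2 := by
    have := Real.abs_exp_sub_one_sub_id_le (x := 2 * L) (by rw [abs_of_pos (by linarith)]; linarith)
    have := (abs_le.1 this).2
    linarith
  have h2 : d / (d + 2) * (d / (d - 2)) ≤ 1 + 8 * L ^ 2 := by
    have h3 : 1 / d ≤ L := by
      rw [hL]
      gcongr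
    have h4 : 1 / d ^ 2 ≤ L ^ 2 := by
      have : (1 / d) ^ 2 ≤ L ^ 2 := by gcongr
      calc 1 / d ^ 2 = (1 / d) ^ 2 := by ring
        _ ≤ _ := this
    have h5 : d / (d + 2) * (d / (d - 2)) ≤ 1 + 8 * (1 / d ^ 2) := by
      have h6 : 0 < (d + 2) * (d - 2) := by nlinarith
      rw [div_mul_div_comm, div_le_iff₀ h6]
      have h7 : (1 + 8 * (1 / d ^ 2)) * ((d + 2) * (d - 2)) = d * d + (4 * d ^ 2 - 32) / d ^ 2 := by
        field_simp
        ring
      rw [h7]
      have : 0 ≤ (4 * d ^ 2 - 32) / d ^ 2 := div_nonneg (by nlinarith) (by positivity)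
      linarith
    linarith
  have h3 : 0 ≤ Real.exp (2 * L) := (Real.exp_pos _).le
  calc d / (d + 2) * (d / (d - 2)) * Real.exp (2 * L)
      ≤ (1 + 8 * L ^ 2) * (1 + 2 * L + (2 * L) ^ 2) := by
        apply mul_le_mul h2 h1 h3 (by positivity)
    _ ≤ 1 + 3 * L := by
        have h4 : L ^ 2 ≤ L * (1 / 100) := by nlinarith
        have h5 : L ^ 3 ≤ L * (1 / 100) := by nlinarith [mul_nonneg hL0.le (sq_nonneg L)]
        have h6 : L ^ 4 ≤ L * (1 / 100) := by nlinarith [mul_nonneg hL0.le (sq_nonneg L), mul_nonneg (sq_nonneg L) (sq_nonneg L)]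
        nlinarith

/-- the upper bound for the semiclassical constant, explicit range -/
theorem Kc_upX {d : ℕ} (hd3 : 3 ≤ d) (hL : Real.log (d : ℝ) / (d : ℝ) ≤ 1 / 100) :
    Kc d ≤ 2 * π * d / Real.exp 1 * (1 + 3 * Real.log d / d) := by
  have hd3' : (3 : ℝ) ≤ d := by exact_mod_cast hd3
  have hl : 1 ≤ Real.log (d : ℝ) := by
    rw [Real.le_log_iff_exp_le (by linarith)]
    have := Real.exp_one_lt_d9
    linarith
  have h2 := kcu_fin hd3' hl rfl hL
  refine (kcu_main hd3).trans ?_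
  apply mul_le_mul_of_nonneg_left _ (by positivity)
  have h3 : Real.exp (2 / (d : ℝ) * Real.log ((d : ℝ) / 2)) ≤
      Real.exp (2 * (Real.log (d : ℝ) / d)) := by
    apply Real.exp_le_exp.2
    have : Real.log ((d : ℝ) / 2) ≤ Real.log d :=
      Real.log_le_log (by linarith) (by linarith)
    calc 2 / (d : ℝ) * Real.log ((d : ℝ) / 2) ≤ 2 / (d : ℝ) * Real.log d :=
          mul_le_mul_of_nonneg_left this (by positivity)
      _ = _ := by ring
  have h4 : 0 ≤ (d : ℝ) / ((d : ℝ) + 2) * ((d : ℝ) / ((d : ℝ) - 2)) := by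
    have : 0 < (d : ℝ) - 2 := by linarith
    positivity
  calc _ ≤ (d : ℝ) / ((d : ℝ) + 2) * ((d : ℝ) / ((d : ℝ) - 2)) *
        Real.exp (2 * (Real.log (d : ℝ) / d)) := mul_le_mul_of_nonneg_left h3 h4
    _ ≤ 1 + 3 * (Real.log (d : ℝ) / d) := h2
    _ = _ := by ring

/-- the main inequality on `Fin d → ℝ`, in every dimension -/
theorem fkin_geX {d : ℕ} (hd2 : 2 ≤ d) {N : ℕ} (hN0 : 0 < N)
    (hN : (N : ℝ) ^ (2 / (d : ℝ)) ≤ 1 / 10 ^ 9 * d / Real.log d) (u : Fin N → (Fin d → ℝ) → ℂ)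
    (hu : Fam u) (hb : Bes u) (hn : (∫ x, rho u x) ≤ N) :
    (1 + 1 / 10 ^ 9 * (N : ℝ) ^ (-(2 / (d : ℝ)))) * Kc d * (∫ x, rho u x ^ (1 + 2 / (d : ℝ)))
      ≤ kin u := by
  have hT := trans_SX
  set D : ℝ := 10 with hD
  have hd0 : (0 : ℝ) < d := by
    have : 0 < d := by omega
    exact_mod_cast this
  have hd2R : (2 : ℝ) ≤ d := by exact_mod_cast hd2
  have hlog2 : Real.log 2 ≤ Real.log d := Real.log_le_log (by norm_num) hd2R
  have hl2 := Real.log_two_gt_d9
  have hlog0 : 0 < Real.log d := by linarith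
  have hN1 : (1 : ℝ) ≤ N := by exact_mod_cast hN0
  have hNpos : (0 : ℝ) < N := by linarith
  set P : ℝ := (N : ℝ) ^ (2 / (d : ℝ)) with hP
  have hP1 : 1 ≤ P := Real.one_le_rpow hN1 (by positivity)
  have hP0 : 0 < P := by linarith
  have hPinv : (N : ℝ) ^ (-(2 / (d : ℝ))) = P⁻¹ := by rw [hP, Real.rpow_neg hNpos.le]
  have hbig : 10 ^ 9 * Real.log d ≤ d := by
    have h1 : 1 ≤ 1 / 10 ^ 9 * (d : ℝ) / Real.log d := hP1.trans hN
    rw [le_div_iff₀ hlog0] at h1
    linarith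
  have hlog4 : 4 ≤ Real.log d := by
    rw [Real.le_log_iff_exp_le hd0]
    have h1 : Real.exp 4 = Real.exp 1 ^ 4 := by
      rw [← Real.exp_nat_mul]
      norm_num
    have h2 : Real.exp 1 ^ 4 ≤ 3 ^ 4 := by
      apply pow_le_pow_left₀ (Real.exp_pos 1).le
      have := Real.exp_one_lt_d9
      linarith
    rw [h1]
    refine h2.trans ?_
    linarith
  have hd3 : 3 ≤ d := by
    have : (3 : ℝ) ≤ d := by linarith
    exact_mod_cast this
  have hL100 : Real.log (d : ℝ) / d ≤ 1 / 100 := by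
    rw [div_le_iff₀ hd0]
    linarith
  set A : ℝ := 94 * (N : ℝ) ^ (1 / (d : ℝ)) with hA
  have hA1 : 1 ≤ A := by
    have : (1 : ℝ) ≤ (N : ℝ) ^ (1 / (d : ℝ)) := Real.one_le_rpow hN1 (by positivity)
    rw [hA]; linarith
  have hAd : (A / 94) ^ d = N := by
    rw [hA, mul_div_cancel_left₀ _ (by norm_num : (94 : ℝ) ≠ 0), ← Real.rpow_natCast,
      ← Real.rpow_mul hNpos.le, one_div, inv_mul_cancel₀ hd0.ne', Real.rpow_one]
  have hA2 : A ^ 2 = 8836 * P := by
    rw [hA, mul_pow, ← Real.rpow_natCast ((N : ℝ) ^ (1 / (d : ℝ))) 2, ← Real.rpow_mul hNpos.le, hP]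
    have : 1 / (d : ℝ) * ((2 : ℕ) : ℝ) = 2 / d := by push_cast; ring
    rw [this]
    norm_num
  set κ : ℝ := 880 * A ^ 2 with hκ
  have hκP : κ = 7775680 * P := by rw [hκ, hA2]; ring
  have hκ1 : 7775680 ≤ κ := by rw [hκP]; linarith
  have hκ0 : 0 < κ := by linarith
  set x : ℝ := 1 / κ with hx
  have hx0 : 0 < x := by positivity
  have hx1 : x ≤ 1 / 100 := by
    rw [hx]
    exact one_div_le_one_div_of_le (by norm_num) (by linarith)
  set sκ : ℝ := √κ with hsκ
  have hsκ0 : 0 < sκ := Real.sqrt_pos.mpr hκ0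
  have hsκ2 : sκ ^ 2 = κ := Real.sq_sqrt hκ0.le
  have hsκ1 : 1 ≤ sκ := by
    rw [hsκ, ← Real.sqrt_one]
    exact Real.sqrt_le_sqrt (by linarith)
  set η : ℝ := 1 / (8 * sκ) with hη
  have hη0 : 0 < η := by positivity
  have hη1 : η ≤ 1 / 8 := by
    rw [hη]
    exact one_div_le_one_div_of_le (by norm_num) (by linarith)
  have hη2 : η ^ 2 = x / 64 := by
    rw [hη, hx, div_pow, mul_pow, hsκ2]
    field_simp
    norm_num
  have h := fassembled' hd2 hu hb hT hη0 (by linarith) hA1 (by rw [hAd]; exact hn)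
  rw [← hκ] at h
  set K0 : ℝ := 2 * π * d / Real.exp 1 with hK0
  have hK00 : 0 < K0 := by rw [hK0]; positivity
  set J : ℝ := ∫ x, rho u x ^ (1 + 2 / (d : ℝ)) with hJ
  have hJ0 : 0 ≤ J := integral_nonneg fun y => Real.rpow_nonneg (rho_nonneg u y) _
  -- smallness
  have hκd : κ * Real.log d ≤ d / 128 := by
    have h1 : P * Real.log d ≤ 1 / 10 ^ 9 * d := by
      rwa [le_div_iff₀ hlog0] at hN
    rw [hκP]
    nlinarith
  have hl : 3 * Real.log d / d ≤ x / 16 := by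
    rw [hx, div_le_iff₀ hd0]
    have : 3 * Real.log d * (16 * κ) ≤ d := by nlinarith
    have h2 : 1 / κ / 16 * d = d / (16 * κ) := by field_simp
    rw [h2, le_div_iff₀ (by positivity)]
    linarith
  have hf : 5 / (d : ℝ) ≤ x / 16 := by
    refine le_trans ?_ hl
    apply div_le_div_of_nonneg_right _ hd0.le
    linarith
  set g : ℝ := 16 * D / (η * d) ^ 2 with hg
  have hg0 : 0 ≤ g := by positivity
  have hgx : g ≤ x / 16 := by
    have h1 : g = 1024 * D * κ / d ^ 2 := by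
      rw [hg, mul_pow, hη2, hx]
      field_simp
      ring
    rw [h1, hx, div_le_iff₀ (by positivity)]
    have h2 : 1 / κ / 16 * (d : ℝ) ^ 2 = (d : ℝ) ^ 2 / (16 * κ) := by field_simp
    rw [h2, le_div_iff₀ (by positivity)]
    have h3 : (κ * Real.log d) ^ 2 ≤ (d / 128) ^ 2 :=
      pow_le_pow_left₀ (by positivity) hκd 2
    have h4 : (κ * 4) ^ 2 ≤ (κ * Real.log d) ^ 2 :=
      pow_le_pow_left₀ (by positivity) (mul_le_mul_of_nonneg_left hlog4 hκ0.le) 2
    rw [hD]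
    nlinarith [sq_nonneg (d : ℝ)]
  have hnum := ffinal_num hx0 hx1 (by positivity : 0 ≤ 3 * Real.log d / d) hl
    (by positivity : (0 : ℝ) ≤ 5 / d) hf hg0 hgx
  -- lower bound for the bracket
  have hbr : (1 + x / 4) * (1 + 3 * Real.log d / d) * ((1 + x / 2) * (1 + g))
      ≤ 1 - 4 * η ^ 2 + (2 - 2 * η) / κ - 5 / d := by
    refine hnum.trans ?_
    rw [hη2]
    have h1 : (2 - 2 * η) / κ = (2 - 2 * η) * x := by rw [hx]; ring
    rw [h1]
    nlinarith
  have hKc := Kc_upX hd3 hL100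
  have hc : 1 / 10 ^ 9 * (N : ℝ) ^ (-(2 / (d : ℝ))) ≤ x / 4 := by
    rw [hPinv, hx, hκP]
    have : 1 / (7775680 * P) / 4 = 1 / 31102720 * P⁻¹ := by field_simp; norm_num
    rw [this]
    apply mul_le_mul_of_nonneg_right _ (by positivity)
    norm_num
  have hfac : 0 < (1 + 1 / (2 * κ)) * (1 + g) := by positivity
  have hx2 : 1 / (2 * κ) = x / 2 := by rw [hx]; field_simp
  have hlhs : (1 + 1 / 10 ^ 9 * (N : ℝ) ^ (-(2 / (d : ℝ)))) * Kc d * J
      ≤ (1 + x / 4) * (K0 * (1 + 3 * Real.log d / d)) * J := by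
    apply mul_le_mul_of_nonneg_right _ hJ0
    apply mul_le_mul (by linarith) hKc _ (by positivity)
    exact hd0.le.trans (Kc_ge hd2)
  refine hlhs.trans ?_
  have h6 : (1 + x / 4) * (K0 * (1 + 3 * Real.log d / d)) * J * ((1 + 1 / (2 * κ)) * (1 + g))
      ≤ (1 + 1 / (2 * κ)) * ((1 + g) * kin u) := by
    calc _ = K0 * (J * ((1 + x / 4) * (1 + 3 * Real.log d / d) * ((1 + x / 2) * (1 + g)))) := by
          rw [hx2]; ring
      _ ≤ K0 * (J * (1 - 4 * η ^ 2 + (2 - 2 * η) / κ - 5 / d)) :=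
          mul_le_mul_of_nonneg_left (mul_le_mul_of_nonneg_left hbr hJ0) hK00.le
      _ ≤ _ := h
  have h7 : (1 + 1 / (2 * κ)) * ((1 + g) * kin u) = kin u * ((1 + 1 / (2 * κ)) * (1 + g)) := by ring
  rw [h7] at h6
  exact le_of_mul_le_mul_right h6 hfac


theorem ffinalX (d : ℕ) (hd2 : 2 ≤ d) (N : ℕ) (hN : 0 < N)
    (hNd : (N : ℝ) ≤ (1 / 10 ^ 9 * d / Real.log d) ^ ((d : ℝ) / 2))
    (u : Fin N → EuclideanSpace ℝ (Fin d) → ℂ)
    (hu : ∀ n, ContDiff ℝ 1 (u n) ∧ HasCompactSupport (u n))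
    (ho : ∀ n m, ∫ x, star (u n x) * u m x = if n = m then (1 : ℂ) else 0) :
    (1 + 1 / 10 ^ 9 * (N : ℝ) ^ (-(2 / (d : ℝ)))) * Kc d *
        (∫ x, (∑ n, ‖u n x‖ ^ 2) ^ (1 + 2 / (d : ℝ)))
      ≤ ∑ n, ∫ x, ∑ i : Fin d, ‖fderiv ℝ (u n) x (EuclideanSpace.single i (1 : ℝ))‖ ^ 2 := by
  have hdR : (0 : ℝ) < d := by
    have : 0 < d := by omega
    exact_mod_cast this
  have hlog : 0 < Real.log d := Real.log_pos (by exact_mod_cast hd2)
  have hX : 0 ≤ 1 / 10 ^ 9 * (d : ℝ) / Real.log d := by positivity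
  have hN2 : (N : ℝ) ^ (2 / (d : ℝ)) ≤ 1 / 10 ^ 9 * d / Real.log d := by
    have h1 := Real.rpow_le_rpow (Nat.cast_nonneg N) hNd (by positivity : 0 ≤ 2 / (d : ℝ))
    rw [← Real.rpow_mul hX] at h1
    have h2 : (d : ℝ) / 2 * (2 / d) = 1 := by field_simp
    rwa [h2, Real.rpow_one] at h1
  have hfam := fam_eE hu
  set v : Fin N → (Fin d → ℝ) → ℂ := fun n y => u n (eE d y) with hv
  have ho' : ∀ n m, ∫ y, star (v n y) * v m y = if n = m then (1 : ℂ) else 0 := by
    intro n m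
    rw [← ho n m, integral_eE]
  have hb : Bes v := bes_of_ortho hfam ho'
  have hn : (∫ y, rho v y) ≤ N := by
    have h1 : ∀ n, ∫ y, ‖v n y‖ ^ 2 = 1 := by
      intro n
      have h2 := ho' n n
      rw [if_pos rfl] at h2
      have h3 : ∀ y, star (v n y) * v n y = ((‖v n y‖ ^ 2 : ℝ) : ℂ) := by
        intro y
        rw [RCLike.star_def, ← Complex.normSq_eq_conj_mul_self, Complex.normSq_eq_norm_sq]
      simp only [h3] at h2
      rw [integral_complex_ofReal] at h2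
      exact_mod_cast h2
    have h4 : ∀ n, Integrable (fun y => ‖v n y‖ ^ 2) := by
      intro n
      apply Continuous.integrable_of_hasCompactSupport
      · exact (hfam.smooth n).continuous.norm.pow 2
      · exact (hfam.supp n).norm.comp_left (g := fun t : ℝ => t ^ 2) (by simp)
    unfold rho
    rw [integral_finsetSum _ fun n _ => h4 n]
    simp only [h1]
    simp
  have h := fkin_geX hd2 hN hN2 v hfam hb hn
  have e1 : ∫ x, (∑ n, ‖u n x‖ ^ 2) ^ (1 + 2 / (d : ℝ))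
      = ∫ y, rho v y ^ (1 + 2 / (d : ℝ)) := by
    rw [integral_eE]
    rfl
  have e2 : ∑ n, ∫ x, ∑ i : Fin d, ‖fderiv ℝ (u n) x (EuclideanSpace.single i (1 : ℝ))‖ ^ 2
      = kin v := by
    rw [kin_eq hfam]
    apply Finset.sum_congr rfl
    intro n _
    rw [integral_eE]
    congr 1
    funext y
    unfold dens1
    apply Finset.sum_congr rfl
    intro i _
    rw [hv]
    simp only
    rw [fderiv_eE (hu n).1]
  rw [e1, e2]
  exact h

end Pool.Agent.LTHX
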