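import Mathlib
import Pool.Agent.LTHD.KcAsym

open Real Finset MeasureTheory
open Pool.Agent.LiebT2

set_option autoImplicit false

namespace Pool.Agent.LTHX

open Pool.Agent.LTHD

theorem aux {δ : ℝ} (hδ : 0 < δ) (hδ1 : δ ≤ 1) {d : ℝ} (hd0 : 0 < d) (hd : 24 ≤ δ ^ 2 * d) :
    ((1 - (1 + δ / 2)⁻¹)⁻¹) ^ (2 / d) ≤ (1 + δ) / (1 + δ / 2) := by
  have hc0 : 1 - (1 + δ / 2)⁻¹ = δ / (2 + δ) := by
    have h2 : (2 : ℝ) + δ ≠ 0 := by positivity
    have h3 : (1 : ℝ) + δ / 2 ≠ 0 := by positivity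
    have h4 : (1 + δ / 2)⁻¹ = 2 / (2 + δ) := by
      rw [inv_eq_one_div, div_eq_div_iff h3 h2]
      ring
    rw [h4, eq_div_iff h2, sub_mul, div_mul_cancel₀ _ h2]
    ring
  have hc : (1 - (1 + δ / 2)⁻¹)⁻¹ = (2 + δ) / δ := by
    rw [hc0, inv_div]
  rw [hc]
  have h0 : 0 < (2 + δ) / δ := by positivity
  have h1 : (2 + δ) / δ ≤ 3 / δ := by
    apply div_le_div_of_nonneg_right _ hδ.le
    linarith
  have h3 : 0 < 3 / δ := by positivity
  have h2 : ((2 + δ) / δ) ^ (2 / d) ≤ (3 / δ) ^ (2 / d) :=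
    Real.rpow_le_rpow h0.le h1 (by positivity)
  refine h2.trans ?_
  rw [Real.rpow_def_of_pos h3, ← Real.le_log_iff_exp_le (by positivity)]
  have h4 : Real.log (3 / δ) ≤ 3 / δ := by
    have := Real.log_le_sub_one_of_pos h3
    linarith
  have h5 : Real.log (3 / δ) * (2 / d) ≤ 3 / δ * (2 / d) :=
    mul_le_mul_of_nonneg_right h4 (by positivity)
  refine h5.trans ?_
  have h6 : 3 / δ * (2 / d) ≤ δ / 4 := by
    rw [div_mul_div_comm, div_le_div_iff₀ (by positivity) (by norm_num)]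
    nlinarith
  refine h6.trans ?_
  have h7 : (1 + δ) / (1 + δ / 2) = (1 + (δ / 2) / (1 + δ / 2)) := by
    field_simp
    ring
  rw [h7]
  have h8 := Real.one_sub_inv_le_log_of_pos (x := 1 + (δ / 2) / (1 + δ / 2)) (by positivity)
  refine le_trans ?_ h8
  have h9 : 1 - (1 + (δ / 2) / (1 + δ / 2))⁻¹ = δ / (2 * (1 + δ)) := by
    field_simp
    ring
  rw [h9, div_le_div_iff₀ (by norm_num) (by positivity)]
  nlinarith
/-- quantitative form of `Kc_le` -/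
theorem Kc_leX {d : ℕ} {δ : ℝ} (hδ : 0 < δ) (hδ1 : δ ≤ 1) (hd : 24 ≤ δ ^ 2 * d) :
    Kc d ≤ (1 + δ) * (2 * π * d / Real.exp 1) := by
  have hd' : (0 : ℝ) < d := by
    by_contra hcon
    push Not at hcon
    have : δ ^ 2 * (d : ℝ) ≤ 0 := mul_nonpos_of_nonneg_of_nonpos (by positivity) hcon
    linarith
  have hd1 : 0 < d := by exact_mod_cast hd'
  set θ : ℝ := (1 + δ / 2)⁻¹ with hθ
  have hθ0 : 0 < θ := by positivity
  have hθ1 : θ < 1 := inv_lt_one_of_one_lt₀ (by linarith)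
  set c : ℝ := (1 - θ)⁻¹ with hc
  have hc0 : 0 < c := by
    have : 0 < 1 - θ := by linarith
    positivity
  have hd2 : c ^ (2 / (d : ℝ)) ≤ (1 + δ) / (1 + δ / 2) := aux hδ hδ1 hd' hd
  have hx : (0 : ℝ) < (d : ℝ) / 2 := by positivity
  rw [kcAsym_Kc_eq hd1]
  have h1 := kcAsym_gamma_le hx hθ0 hθ1
  have hG : 0 < Real.Gamma ((d : ℝ) / 2 + 1) := Real.Gamma_pos_of_pos (by positivity)
  have h4 := Real.rpow_le_rpow hG.le h1 (show 0 ≤ 2 / (d : ℝ) by positivity)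
  rw [Real.mul_rpow (by positivity) hc0.le, ← Real.rpow_mul (by positivity),
    show (d : ℝ) / 2 * (2 / d) = 1 by field_simp, Real.rpow_one] at h4
  have h5 : (Real.Gamma ((d : ℝ) / 2 + 1)) ^ (2 / (d : ℝ)) ≤
      (d : ℝ) / 2 / (θ * Real.exp 1) * ((1 + δ) / (1 + δ / 2)) :=
    h4.trans (mul_le_mul_of_nonneg_left hd2 (by positivity))
  have h6 : (d : ℝ) / 2 / (θ * Real.exp 1) * ((1 + δ) / (1 + δ / 2)) =
      (d : ℝ) / (2 * Real.exp 1) * (1 + δ) := by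
    rw [hθ]; field_simp
  rw [h6] at h5
  have h7 : (d : ℝ) / ((d : ℝ) + 2) ≤ 1 := by
    rw [div_le_one (by positivity)]; linarith
  calc (d : ℝ) / ((d : ℝ) + 2) * (4 * π) * (Real.Gamma ((d : ℝ) / 2 + 1)) ^ (2 / (d : ℝ))
      ≤ 1 * (4 * π) * ((d : ℝ) / (2 * Real.exp 1) * (1 + δ)) := by gcongr
    _ = (1 + δ) * (2 * π * d / Real.exp 1) := by field_simp; ring

end Pool.Agent.LTHX
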