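import Mathlib
import Pool.Agent.LTHD.Defs

open Real Finset MeasureTheory
open Pool.Agent.LiebT2

set_option autoImplicit false

namespace Pool.Agent.LTHX

open Pool.Agent.LTHD

/-- explicit localisation function `√630 * (max (1/4 - x^2) 0)^2` -/
noncomputable def fX (x : ℝ) : ℝ := √630 * (max (1 / 4 - x ^ 2) 0) ^ 2

theorem hasDerivAt_maxsq (y : ℝ) : HasDerivAt (fun y : ℝ => (max y 0) ^ 2) (2 * max y 0) y := by
  rcases lt_trichotomy y 0 with h | h | h
  · have h1 : (fun y : ℝ => (max y 0) ^ 2) =ᶠ[nhds y] fun _ => (0 : ℝ) := by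
      filter_upwards [gt_mem_nhds h] with z hz
      rw [max_eq_right hz.le]; norm_num
    rw [max_eq_right h.le]
    simpa using (hasDerivAt_const y (0 : ℝ)).congr_of_eventuallyEq h1
  · subst h
    have h2 : HasDerivAt (fun y : ℝ => (max y 0) ^ 2) 0 0 := by
      rw [hasDerivAt_iff_isLittleO_nhds_zero]
      have h3 : (fun h : ℝ => h ^ 2) =o[nhds 0] fun h : ℝ => h := by
        simpa using Asymptotics.isLittleO_pow_pow (𝕜 := ℝ) (m := 1) (n := 2) (by norm_num)
      refine Asymptotics.IsBigO.trans_isLittleO ?_ h3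
      refine Asymptotics.IsBigO.of_bound 1 (Filter.Eventually.of_forall fun h => ?_)
      simp only [zero_add, max_self, smul_zero, sub_zero, norm_pow, Real.norm_eq_abs, one_mul]
      have : |max h 0| ≤ |h| := by
        rcases le_total h 0 with h4 | h4
        · rw [max_eq_right h4]; simp
        · rw [max_eq_left h4]
      have h5 : |max h 0| ^ 2 ≤ |h| ^ 2 := pow_le_pow_left₀ (abs_nonneg _) this 2
      simpa using h5
    simpa using h2
  · have h1 : (fun y : ℝ => (max y 0) ^ 2) =ᶠ[nhds y] fun y => y ^ 2 := by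
      filter_upwards [lt_mem_nhds h] with z hz
      rw [max_eq_left hz.le]
    rw [max_eq_left h.le]
    have := (hasDerivAt_pow 2 y).congr_of_eventuallyEq h1
    simpa using this

theorem hasDerivAt_fX (x : ℝ) :
    HasDerivAt fX (√630 * (2 * max (1 / 4 - x ^ 2) 0 * (-(2 * x)))) x := by
  have h1 : HasDerivAt (fun x : ℝ => 1 / 4 - x ^ 2) (-(2 * x)) x := by
    have := (hasDerivAt_pow 2 x).const_sub (1 / 4)
    simpa using this
  have h2 := (hasDerivAt_maxsq (1 / 4 - x ^ 2)).comp x h1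
  exact h2.const_mul (√630)

theorem deriv_fX : deriv fX = fun x => √630 * (2 * max (1 / 4 - x ^ 2) 0 * (-(2 * x))) :=
  funext fun x => (hasDerivAt_fX x).deriv

theorem int_supp (g : ℝ → ℝ) (h : ∀ x, 1 / 2 ≤ |x| → g x = 0) :
    ∫ x, g x = ∫ x in (-(1 / 2) : ℝ)..(1 / 2), g x := by
  rw [intervalIntegral.integral_of_le (by norm_num)]
  rw [← MeasureTheory.setIntegral_univ]
  refine MeasureTheory.setIntegral_eq_of_subset_of_forall_sdiff_eq_zero MeasurableSet.univ
    (Set.subset_univ _) ?_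
  intro x hx
  apply h
  have hx2 := hx.2
  simp only [Set.mem_Ioc, not_and, not_le] at hx2
  by_cases h1 : -(1 / 2) < x
  · exact (hx2 h1).le.trans (le_abs_self x)
  · rw [not_lt] at h1
    calc (1 / 2 : ℝ) ≤ -x := by linarith
      _ ≤ |x| := neg_le_abs x

theorem max_int {x : ℝ} (hx : x ∈ Set.uIcc (-(1 / 2) : ℝ) (1 / 2)) :
    max (1 / 4 - x ^ 2) 0 = 1 / 4 - x ^ 2 := by
  rw [Set.uIcc_of_le (by norm_num)] at hx
  apply max_eq_left
  nlinarith [hx.1, hx.2]

theorem max_zero {x : ℝ} (hx : 1 / 2 ≤ |x|) : max (1 / 4 - x ^ 2) 0 = 0 := by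
  apply max_eq_right
  have : (1 / 2 : ℝ) ^ 2 ≤ |x| ^ 2 := pow_le_pow_left₀ (by norm_num) hx 2
  rw [sq_abs] at this
  linarith

theorem sq630 : (√630 : ℝ) ^ 2 = 630 := Real.sq_sqrt (by norm_num)

theorem loc_fX : Loc fX (5 / 2) 12 := by
  refine ⟨?_, ?_, ?_, ?_, ?_⟩
  · rw [contDiff_one_iff_deriv]
    refine ⟨fun x => (hasDerivAt_fX x).differentiableAt, ?_⟩
    rw [deriv_fX]
    fun_prop
  · intro x hx
    rw [fX, max_zero hx]; norm_num
  · rw [int_supp _ (fun x hx => by rw [fX, max_zero hx]; norm_num)]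
    have h1 : ∫ x in (-(1 / 2) : ℝ)..(1 / 2), fX x ^ 2 =
        ∫ x in (-(1 / 2) : ℝ)..(1 / 2), (630 * x ^ 8 - 630 * x ^ 6 + 630 * (3 / 8) * x ^ 4
          - 630 * (1 / 16) * x ^ 2 + 630 / 256) := by
      refine intervalIntegral.integral_congr fun x hx => ?_
      simp only [fX]
      rw [max_int hx]
      calc (√630 * (1 / 4 - x ^ 2) ^ 2) ^ 2 = (√630) ^ 2 * (1 / 4 - x ^ 2) ^ 4 := by ring
        _ = _ := by rw [sq630]; ring
    rw [h1]
    rw [intervalIntegral.integral_add, intervalIntegral.integral_sub, intervalIntegral.integral_add,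
      intervalIntegral.integral_sub]
    · simp only [intervalIntegral.integral_const_mul, integral_pow, intervalIntegral.integral_const]
      norm_num
    all_goals exact Continuous.intervalIntegrable (by fun_prop) _ _
  · intro x
    have h1 : 0 ≤ max (1 / 4 - x ^ 2) 0 := le_max_right _ _
    have h2 : max (1 / 4 - x ^ 2) 0 ≤ 1 / 4 := by
      apply max_le _ (by norm_num)
      nlinarith [sq_nonneg x]
    have h3 : (max (1 / 4 - x ^ 2) 0) ^ 4 ≤ (1 / 4) ^ 4 := pow_le_pow_left₀ h1 h2 4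
    calc fX x ^ 2 = (√630) ^ 2 * (max (1 / 4 - x ^ 2) 0) ^ 4 := by rw [fX]; ring
      _ ≤ 5 / 2 := by rw [sq630]; linarith
  · rw [deriv_fX]
    rw [int_supp _ (fun x hx => by simp only; rw [max_zero hx]; norm_num)]
    have h1 : ∫ x in (-(1 / 2) : ℝ)..(1 / 2),
        (√630 * (2 * max (1 / 4 - x ^ 2) 0 * (-(2 * x)))) ^ 2 =
        ∫ x in (-(1 / 2) : ℝ)..(1 / 2), (10080 * x ^ 6 - 5040 * x ^ 4 + 630 * x ^ 2) := by
      refine intervalIntegral.integral_congr fun x hx => ?_
      rw [max_int hx]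
      calc (√630 * (2 * (1 / 4 - x ^ 2) * (-(2 * x)))) ^ 2 =
          (√630) ^ 2 * ((2 * (1 / 4 - x ^ 2) * (-(2 * x)))) ^ 2 := by ring
        _ = _ := by rw [sq630]; ring
    rw [h1]
    rw [intervalIntegral.integral_add, intervalIntegral.integral_sub]
    · simp only [intervalIntegral.integral_const_mul, integral_pow]
      norm_num
    all_goals exact Continuous.intervalIntegrable (by fun_prop) _ _

end Pool.Agent.LTHX
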