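import Mathlib
import Pool.Agent.LTHD.Main
import Pool.Agent.LTHX.LocX
import Pool.Agent.LTHX.TransX
import Pool.Agent.LTHX.KcX

open Real Finset MeasureTheory Matrix ComplexOrder
open Pool.Agent.LiebT2

set_option autoImplicit false

namespace Pool.Agent.LTHX

open Pool.Agent.LTHD

variable {d k N : ℕ}

/-- the number `k0 = 5 log (8 / √e)` -/
theorem k0_facts {e : ℝ} (he0 : 0 < e) (he1 : e ≤ 1 / 6) : ∃ k0 : ℝ, 2 ≤ k0 ∧
    Real.exp k0 = 32768 / (e ^ 2 * √e) ∧ 48 * k0 * Real.exp (-k0) * (36 / e) ≤ e := by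
  have hs : 0 < √e := Real.sqrt_pos.mpr he0
  have hss : √e * √e = e := Real.mul_self_sqrt he0.le
  have hs1 : √e ≤ 1 := Real.sqrt_le_iff.mpr ⟨by norm_num, by linarith⟩
  set p : ℝ := 8 / √e with hp
  have hp0 : 0 < p := by positivity
  have hp8 : 8 ≤ p := by
    rw [hp, le_div_iff₀ hs]
    linarith
  have hexp : Real.exp (5 * Real.log p) = p ^ 5 := by
    rw [mul_comm, Real.exp_mul, Real.exp_log hp0]
    norm_cast
  have hpe : p ^ 5 = 32768 / (e ^ 2 * √e) := by
    rw [hp, div_pow]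
    have : √e ^ 5 = e ^ 2 * √e := by
      calc √e ^ 5 = (√e * √e) ^ 2 * √e := by ring
        _ = _ := by rw [hss]
    rw [this]
    norm_num
  have hp4 : p ^ 4 = 4096 / e ^ 2 := by
    rw [hp, div_pow]
    have : √e ^ 4 = e ^ 2 := by
      calc √e ^ 4 = (√e * √e) ^ 2 := by ring
        _ = _ := by rw [hss]
    rw [this]
    norm_num
  refine ⟨5 * Real.log p, ?_, ?_, ?_⟩
  · have h1 : Real.log 8 ≤ Real.log p := Real.log_le_log (by norm_num) hp8
    have h2 : Real.log 8 = 3 * Real.log 2 := by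
      rw [show (8 : ℝ) = 2 ^ 3 by norm_num, Real.log_pow]
      norm_num
    have h3 := Real.log_two_gt_d9
    linarith
  · rw [hexp, hpe]
  · rw [Real.exp_neg, hexp]
    have h1 : Real.log p ≤ p / Real.exp 1 := by
      have h2 := Real.add_one_le_exp (Real.log p - 1)
      rw [Real.exp_sub, Real.exp_log hp0] at h2
      linarith
    have he9 := Real.exp_one_gt_d9
    have h3 : p / Real.exp 1 ≤ p / 2.7 := by
      apply div_le_div_of_nonneg_left hp0.le (by norm_num) (by linarith)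
    have h4 : Real.log p ≤ p / 2.7 := h1.trans h3
    have h5 : 48 * (5 * Real.log p) * (p ^ 5)⁻¹ * (36 / e)
        ≤ 48 * (5 * (p / 2.7)) * (p ^ 5)⁻¹ * (36 / e) := by
      apply mul_le_mul_of_nonneg_right _ (by positivity)
      apply mul_le_mul_of_nonneg_right _ (by positivity)
      linarith
    refine h5.trans ?_
    have h6 : 48 * (5 * (p / 2.7)) * (p ^ 5)⁻¹ * (36 / e) = 3200 / (e * p ^ 4) := by
      field_simp
      norm_num
    rw [h6, hp4]
    have h7 : e * (4096 / e ^ 2) = 4096 / e := by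
      field_simp
    rw [h7]
    rw [div_div_eq_mul_div, div_le_iff₀ (by norm_num)]
    linarith

theorem kin_geX {e : ℝ} (he0 : 0 < e) (he1 : e ≤ 1 / 6) {d : ℕ} (hd : 10 ^ 26 ≤ e ^ 12 * d) {N : ℕ}
    (u : Fin N → (Fin d → ℝ) → ℂ) (hu : Fam u) (hbu : Bes u) :
    (1 - 6 * e / d) * Kc d * (∫ x, rho u x ^ (1 + 2 / (d : ℝ))) ≤ kin u := by
  have hs : 0 < √e := Real.sqrt_pos.mpr he0
  have hss : √e * √e = e := Real.mul_self_sqrt he0.le
  have hs1 : √e ≤ 1 := Real.sqrt_le_iff.mpr ⟨by norm_num, by linarith⟩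
  have he12 : e ^ 12 ≤ 1 := pow_le_one₀ he0.le (by linarith)
  have hdbig : (10 : ℝ) ^ 26 ≤ d := by
    refine hd.trans ?_
    have : (0 : ℝ) ≤ d := Nat.cast_nonneg d
    nlinarith
  have hd0 : (0 : ℝ) < d := by
    have : (0 : ℝ) < 10 ^ 26 := by norm_num
    linarith
  have g1 : 2 ≤ d := by
    have : (2 : ℝ) ≤ d := by
      have : (2 : ℝ) ≤ 10 ^ 26 := by norm_num
      linarith
    exact_mod_cast this
  have hd2r : (2 : ℝ) ≤ d := by exact_mod_cast g1
  obtain ⟨k0, hk0, hk1, hk2⟩ := k0_facts he0 he1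
  set lam : ℝ := 36 / e with hlam
  have hl0 : 0 < lam := by positivity
  have hl1 : 1 ≤ lam := by
    rw [hlam, le_div_iff₀ he0]
    linarith
  have hlC : 3 * 12 ≤ e * lam := by
    rw [hlam]
    have : e * (36 / e) = 36 := by field_simp
    rw [this]
    norm_num
  set Cs : ℝ := 3840 * (5 / 2) * Real.exp k0 * lam with hCs
  have hCs0 : 0 < Cs := by positivity
  have hCse : Cs = 11324620800 / (e ^ 3 * √e) := by
    rw [hCs, hk1, hlam]
    field_simp
    norm_num
  set η : ℝ := e / (4 * Cs) with hη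
  have hη0 : 0 < η := by positivity
  have hCs1 : 1 ≤ Cs := by
    rw [hCse, le_div_iff₀ (by positivity)]
    have h1 : e ^ 3 ≤ 1 := pow_le_one₀ he0.le (by linarith)
    have h2 : e ^ 3 * √e ≤ 1 := mul_le_one₀ h1 hs.le hs1
    linarith
  have hη1 : 2 * η ≤ 1 := by
    rw [hη, mul_div_assoc', div_le_one (by positivity)]
    linarith
  have hη2 : Cs * (2 * η) = e / 2 := by
    rw [hη]; field_simp; ring
  set δ : ℝ := e / (2 * Cs) with hδ
  have hδ0 : 0 < δ := by positivity
  have hδ2 : Cs * δ = e / 2 := by rw [hδ]; field_simp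
  set I : ℕ := ⌈13 / e⌉₊ with hI
  have hI0 : 0 < I := Nat.ceil_pos.mpr (by positivity)
  have hI1 : (13 : ℝ) ≤ e * I := by
    have h1 : 13 / e ≤ (⌈13 / e⌉₊ : ℝ) := Nat.le_ceil _
    rw [div_le_iff₀ he0] at h1
    linarith
  have hI2 : e * I ≤ 79 / 6 := by
    have h1 : (I : ℝ) < 13 / e + 1 := Nat.ceil_lt_add_one (by positivity)
    have h2 : e * I ≤ e * (13 / e + 1) := mul_le_mul_of_nonneg_left h1.le he0.le
    have h3 : e * (13 / e + 1) = 13 + e := by field_simp
    linarith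
  have hIr : (0 : ℝ) < I := by exact_mod_cast hI0
  have hIr1 : (1 : ℝ) ≤ I := by exact_mod_cast hI0
  set w : ℝ := η / I with hw
  have hw0 : 0 < w := by positivity
  have hηw : η = I * w := by rw [hw]; field_simp
  have hwη : w ≤ η := by
    rw [hηw]
    nlinarith
  have g2' : Cs ≤ d := by
    rw [hCse, div_le_iff₀ (by positivity)]
    have h1 : e ^ 12 ≤ e ^ 3 * √e := by
      have h2 : e ^ 12 ≤ e ^ 4 := pow_le_pow_of_le_one he0.le (by linarith) (by norm_num)
      have h3 : e ≤ √e := by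
        nlinarith
      have h4 : e ^ 4 ≤ e ^ 3 * √e := by
        have : e ^ 4 = e ^ 3 * e := by ring
        rw [this]
        exact mul_le_mul_of_nonneg_left h3 (by positivity)
      linarith
    have h5 : e ^ 12 * d ≤ e ^ 3 * √e * d := mul_le_mul_of_nonneg_right h1 hd0.le
    have h6 : (11324620800 : ℝ) ≤ 10 ^ 26 := by norm_num
    linarith
  have hws : w = e ^ 4 * √e / (45298483200 * I) := by
    rw [hw, hη, hCse]
    field_simp
    norm_num
  have g5' : 16 * 10 / (e * w ^ 2) ≤ d := by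
    rw [div_le_iff₀ (by positivity), hws]
    have h1 : (d : ℝ) * (e * (e ^ 4 * √e / (45298483200 * I)) ^ 2)
        = e ^ 12 * d / ((45298483200 * (e * I)) ^ 2) := by
      have : (e ^ 4 * √e / (45298483200 * I)) ^ 2
          = e ^ 9 / (45298483200 * I) ^ 2 := by
        rw [div_pow]
        congr 1
        calc (e ^ 4 * √e) ^ 2 = e ^ 8 * (√e * √e) := by ring
          _ = e ^ 9 := by rw [hss]; ring
      rw [this]
      field_simp
    rw [h1, le_div_iff₀ (by positivity)]
    have h2 : (45298483200 * (e * I)) ^ 2 ≤ (45298483200 * (79 / 6)) ^ 2 := by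
      apply pow_le_pow_left₀ (by positivity)
      exact mul_le_mul_of_nonneg_left hI2 (by norm_num)
    have h3 : 16 * 10 * (45298483200 * (79 / 6)) ^ 2 ≤ (10 : ℝ) ^ 26 := by norm_num
    linarith
  have hKge := Kc_ge g1
  have hKpos : 0 < Kc d := hd0.trans_le hKge
  have hK3 : Kc d ≤ 3 * d := by
    have h1 := Kc_leX (d := d) (δ := 1 / 5) (by norm_num) (by norm_num) (by
      have : (24 : ℝ) ≤ (1 / 5) ^ 2 * 10 ^ 26 := by norm_num
      linarith)
    have h2 : 2 * π * d / Real.exp 1 ≤ 5 / 2 * d := by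
      rw [div_le_iff₀ (Real.exp_pos 1)]
      have e1 := Real.exp_one_gt_d9
      have e2 := Real.pi_lt_d2
      have h3 : 2 * π ≤ 5 / 2 * Real.exp 1 := by linarith
      have h4 := mul_le_mul_of_nonneg_right h3 hd0.le
      linarith
    linarith
  have hδ1 : δ ≤ 1 := by
    rw [hδ, div_le_one (by positivity)]
    linarith
  have hKδ : Kc d ≤ (1 + δ) * (2 * π * d / Real.exp 1) := by
    apply Kc_leX hδ0 hδ1
    have h1 : δ = e ^ 4 * √e / 22649241600 := by
      rw [hδ, hCse]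
      field_simp
      norm_num
    have h2 : δ ^ 2 = e ^ 9 / 22649241600 ^ 2 := by
      rw [h1, div_pow]
      congr 1
      calc (e ^ 4 * √e) ^ 2 = e ^ 8 * (√e * √e) := by ring
        _ = e ^ 9 := by rw [hss]; ring
    rw [h2, div_mul_eq_mul_div, le_div_iff₀ (by positivity)]
    have h3 : e ^ 12 ≤ e ^ 9 / 216 := by
      have : e ^ 12 = e ^ 9 * e ^ 3 := by ring
      rw [this, div_eq_mul_inv]
      apply mul_le_mul_of_nonneg_left _ (by positivity)
      have h4 : e ^ 3 ≤ (1 / 6) ^ 3 := pow_le_pow_left₀ he0.le he1 3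
      norm_num at h4 ⊢
      linarith
    have h5 : e ^ 12 * d ≤ e ^ 9 / 216 * d := mul_le_mul_of_nonneg_right h3 hd0.le
    have h6 : 24 * 22649241600 ^ 2 ≤ 216 * (10 : ℝ) ^ 26 := by norm_num
    linarith
  set J : ℝ := ∫ x, rho u x ^ (1 + 2 / (d : ℝ)) with hJ
  set N₀ : ℝ := ∫ x, rho u x with hN₀
  have hJ0 : 0 ≤ J := integral_nonneg fun x => Real.rpow_nonneg (rho_nonneg u x) _
  have hN0 : 0 ≤ N₀ := integral_nonneg fun x => rho_nonneg u x
  have hkin := kin_nonneg u
  rcases hJ0.eq_or_lt with hz | hJpos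
  · rw [← hz, mul_zero]
    exact hkin
  -- the base point
  set X : ℝ := Kc d * J with hX
  have hX0 : 0 < X := mul_pos hKpos hJpos
  set Q : ℝ := (e / d * X) / ((Kc d + 3 * 12 + 6) * (N₀ + 1)) with hQ
  have hQ0 : 0 < Q := by positivity
  set T : ℝ := Real.log Q - η with hTdef
  obtain ⟨M, hM1, hM⟩ := exists_bound_rho hu
  set m : ℕ := ⌈(2 / (d : ℝ) * Real.log M - T) / η⌉₊ with hm
  have hmT : 2 / (d : ℝ) * Real.log M ≤ T + m * η := by
    have h1 : (2 / (d : ℝ) * Real.log M - T) / η ≤ m := Nat.le_ceil _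
    rw [div_le_iff₀ hη0] at h1
    linarith
  obtain ⟨i, hi, hsh⟩ := exists_shift hu (T := T) hI0 hw0 hηw m
  rw [mem_range] at hi
  have hiw : 0 ≤ (i : ℝ) * w := by positivity
  have htop : ∀ x, 0 < rho u x → 2 / (d : ℝ) * Real.log (rho u x) ≤ T + i * w + m * η := by
    intro x hx
    have h1 : Real.log (rho u x) ≤ Real.log M := Real.log_le_log hx (hM x)
    have h2 : 2 / (d : ℝ) * Real.log (rho u x) ≤ 2 / (d : ℝ) * Real.log M :=
      mul_le_mul_of_nonneg_left h1 (by positivity)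
    linarith
  have hmain := assembled g1 hu hbu (B := 5 / 2) (C := 12) (by norm_num) (by norm_num) loc_fX
    trans_SX hl1 hk0 (s := Cs / d) (by rw [hCs])
    (by rw [div_le_one hd0]; exact g2') hδ0.le hK3 hKδ hw0 hwη hη1 htop
  rw [← hJ, ← hN₀, ← hX] at hmain
  set y : ℝ := e / d with hy
  have hy0 : 0 < y := by positivity
  have b1 : Cs / d * (δ + 2 * η) ≤ y := by
    rw [hy, div_mul_eq_mul_div]
    apply div_le_div_of_nonneg_right _ hd0.le
    rw [mul_add]
    linarith
  have b2 : 3 * 12 / (lam * d) ≤ y := by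
    rw [hy, div_le_div_iff₀ (by positivity) hd0]
    have := mul_le_mul_of_nonneg_right hlC hd0.le
    linarith
  have b3 : 13 / (d : ℝ) * Kc d * (∫ x, zn w η (T + i * w) m (2 / (d : ℝ) * Real.log (rho u x)) *
        rho u x ^ (1 + 2 / (d : ℝ))) ≤ y * X := by
    have h1 := mul_le_mul_of_nonneg_left hsh (by positivity : 0 ≤ 13 / (d : ℝ) * Kc d)
    refine h1.trans ?_
    have h2 : 13 / (d : ℝ) * Kc d * (J / I) = (13 / I) * (X / d) := by
      rw [hX]
      field_simp
    have h3 : 13 / (I : ℝ) ≤ e := by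
      rw [div_le_iff₀ hIr]
      exact hI1
    rw [h2]
    have h4 := mul_le_mul_of_nonneg_right h3 (by positivity : 0 ≤ X / d)
    refine h4.trans (le_of_eq ?_)
    rw [hy]
    ring
  have b4 : (Kc d + 3 * 12 + 6) * Real.exp (T + i * w + w) * N₀ ≤ y * X := by
    have h1 : T + i * w + w ≤ T + η := by
      have : ((i : ℝ) + 1) ≤ I := by exact_mod_cast hi
      have h2 := mul_le_mul_of_nonneg_right this hw0.le
      rw [← hηw] at h2
      linarith
    have h2 : Real.exp (T + i * w + w) ≤ Q := by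
      calc _ ≤ Real.exp (T + η) := Real.exp_le_exp.mpr h1
        _ = Q := by
            rw [hTdef, sub_add_cancel, Real.exp_log hQ0]
    have h3 : (Kc d + 3 * 12 + 6) * Real.exp (T + i * w + w) * N₀
        ≤ (Kc d + 3 * 12 + 6) * Q * (N₀ + 1) := by
      apply mul_le_mul _ (by linarith) hN0 (by positivity)
      exact mul_le_mul_of_nonneg_left h2 (by positivity)
    refine h3.trans (le_of_eq ?_)
    rw [hQ]
    field_simp
  have b5 : 48 * k0 * Real.exp (-k0) * lam / d ≤ y := div_le_div_of_nonneg_right hk2 hd0.le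
  have b6 : 16 * 10 / (w * d) ^ 2 ≤ y := by
    rw [hy, div_le_div_iff₀ (by positivity) hd0]
    rw [div_le_iff₀ (by positivity)] at g5'
    have h1 := mul_le_mul_of_nonneg_right g5' hd0.le
    have h2 : (d : ℝ) * (e * w ^ 2) * d = e * (w * d) ^ 2 := by ring
    rw [h2] at h1
    exact h1
  have c1 : X * (1 - 4 * y) ≤ X * (1 - Cs / d * (δ + 2 * η) - 3 * 12 / (lam * d))
      - 13 / (d : ℝ) * Kc d * (∫ x, zn w η (T + i * w) m (2 / (d : ℝ) * Real.log (rho u x)) *
        rho u x ^ (1 + 2 / (d : ℝ)))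
      - (Kc d + 3 * 12 + 6) * Real.exp (T + i * w + w) * N₀ := by
    have h1 : X * (1 - 2 * y) ≤ X * (1 - Cs / d * (δ + 2 * η) - 3 * 12 / (lam * d)) :=
      mul_le_mul_of_nonneg_left (by linarith) hX0.le
    linarith
  have c2 : (1 + 48 * k0 * Real.exp (-k0) * lam / d) * ((1 + 16 * 10 / (w * d) ^ 2) * kin u)
      ≤ (1 + y) * ((1 + y) * kin u) := by
    apply mul_le_mul (by linarith) _ (by positivity) (by positivity)
    exact mul_le_mul_of_nonneg_right (by linarith) hkin
  have c3 : X * (1 - 4 * y) ≤ (1 + y) * ((1 + y) * kin u) := (c1.trans hmain).trans c2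
  have c4 : X * (1 - 6 * y) * (1 + y) ^ 2 ≤ kin u * (1 + y) ^ 2 := by
    have h1 : (1 - 6 * y) * (1 + y) ^ 2 ≤ 1 - 4 * y := by nlinarith [pow_pos hy0 2, pow_pos hy0 3]
    have h2 := mul_le_mul_of_nonneg_left h1 hX0.le
    nlinarith
  have c5 : X * (1 - 6 * y) ≤ kin u := le_of_mul_le_mul_right c4 (by positivity)
  have c6 : (1 - 6 * e / d) * Kc d * J = X * (1 - 6 * y) := by
    rw [hX, hy]
    ring
  rw [c6]
  exact c5

end Pool.Agent.LTHX
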